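import Pool.Agent.helper9.TH.Spec

namespace Pool.Agent.helper73.TH

open Pool.Agent.helper9.TH

universe u

theorem S8 (hPBa : PBa_stmt.{u}) (hPBb : PBb_stmt.{u}) : S8_stmt.{u} := by
  intro p G _ _ P U hU hp hP hUP hOp hNo hPN hcent
  obtain ⟨hPBa1, -, -⟩ := hPBa
  obtain ⟨hPBb1, -, -⟩ := hPBb
  have hOZU : ∀ x ∈ OZ p P, x ∈ U := fun x hx => hcent x (fun y hy => hx.2.2 y (hUP hy))
  have hW : (OZ p U).Normal := by
    constructor
    intro x hx g
    obtain ⟨hx1, hx2, hx3⟩ := hx
    refine ⟨hU.conj_mem x hx1 g, ?_, fun y hy => ?_⟩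
    · rw [conj_pow, hx2]; simp
    · have h1 := hx3 (g⁻¹ * y * g) (by simpa using hU.conj_mem y hy g⁻¹)
      calc g * x * g⁻¹ * y = g * (x * (g⁻¹ * y * g)) * g⁻¹ := by group
        _ = g * ((g⁻¹ * y * g) * x) * g⁻¹ := by rw [h1]
        _ = y * (g * x * g⁻¹) := by group
  have hOZW : (OZ p P : Set G) ⊆ OZ p U :=
    fun x hx => ⟨hOZU x hx, hx.2.1, fun y hy => hx.2.2 y (hUP hy)⟩
  have hVn : (Subgroup.normalClosure (OZ p P : Set G)).Normal := Subgroup.normalClosure_normal
  have hVW : Subgroup.normalClosure (OZ p P : Set G) ≤ OZ p U :=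
    Subgroup.normalClosure_le_normal hOZW
  have hPV : (OZ p P : Set G) ⊆ Subgroup.normalClosure (OZ p P : Set G) :=
    Subgroup.subset_normalClosure
  generalize hV : Subgroup.normalClosure (OZ p P : Set G) = V at hVn hVW hPV
  refine ⟨V, hVn, fun x hx => (hVW hx).1,
    ⟨fun x hx y hy => (hVW hx).2.2 y (hVW hy).1, fun x hx => (hVW hx).2.1⟩,
    fun v hv x hx => (hVW hv).2.2 x hx, ?_⟩
  have hCn : (Subgroup.centralizer (V : Set G)).Normal := inferInstance
  have hCN : Subgroup.centralizer (V : Set G) ≤ Subgroup.normalizer (OZ p P : Set G) := by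
    intro g hg
    rw [Subgroup.mem_normalizer_iff]
    intro x
    have hg' : g⁻¹ ∈ Subgroup.centralizer (V : Set G) := Subgroup.inv_mem _ hg
    constructor
    · intro hx
      have h1 := hg x (hPV hx)
      have h2 : g * x * g⁻¹ = x := by rw [← h1]; group
      rw [h2]; exact hx
    · intro hx
      have h1 := hg' _ (hPV hx)
      have h2 : x = g * x * g⁻¹ := by
        have h3 : g * x * g⁻¹ * g⁻¹ * g = g⁻¹ * (g * x * g⁻¹) * g := by rw [h1]
        have h4 : g * x * g⁻¹ * g⁻¹ * g = g * x * g⁻¹ := by group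
        have h5 : g⁻¹ * (g * x * g⁻¹) * g = x := by group
        rw [h4, h5] at h3
        exact h3.symm
      rw [h2]; exact hx
  obtain ⟨K, hKn, hKc, k, hk⟩ := hPBa1 p (Subgroup.centralizer (V : Set G))
    (Subgroup.normalizer (OZ p P : Set G)) hp (Subgroup.inclusion hCN)
    (Subgroup.inclusion_injective hCN) hPN
  have hK1 := hPBb1 p (Subgroup.centralizer (V : Set G)) K hp hKn hKc ⟨k, hk⟩
  have hKG : (K.map (Subgroup.centralizer (V : Set G)).subtype).Normal := by
    constructor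
    rintro x ⟨y, hy, rfl⟩ g
    refine ⟨⟨g * y * g⁻¹, hCn.conj_mem y y.2 g⟩, ?_, rfl⟩
    have h1 := (hK1 y).1 hy
    show (⟨g * y * g⁻¹, hCn.conj_mem y y.2 g⟩ : Subgroup.centralizer (V : Set G)) ∈ K
    rw [hK1, ← Subgroup.orderOf_coe]
    rw [← Subgroup.orderOf_coe] at h1
    have h2 : orderOf (g * (y : G) * g⁻¹) = orderOf (y : G) := by
      have := MulEquiv.orderOf_eq (MulAut.conj g) (y : G)
      rwa [MulAut.conj_apply] at this
    show (orderOf (g * (y : G) * g⁻¹)).Coprime p
    rw [h2]; exact h1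
  have hKbot : K.map (Subgroup.centralizer (V : Set G)).subtype = ⊥ :=
    hNo _ hKG (by
      rw [Subgroup.card_map_of_injective (Subgroup.subtype_injective _)]; exact hKc)
  have hK : K = ⊥ := by
    rwa [Subgroup.map_eq_bot_iff_of_injective _ (Subgroup.subtype_injective _)] at hKbot
  have hCp : IsPGroup p (Subgroup.centralizer (V : Set G)) := by
    refine IsPGroup.of_card (n := k) ?_
    rw [← hk, hK, Subgroup.index_bot]
  intro g hg
  refine hOp _ hCn hCp ?_
  rw [Subgroup.mem_centralizer_iff]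
  intro v hv
  exact (hg v hv).symm

end Pool.Agent.helper73.TH
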